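import Pool.Agent.H.MP_0d0865_co.AH.Tra

/-!
# Asm: decomposition of all `k`-sets of an affine space

PROOF. As in `AG.Asm`, with `k` instead of 3 and the length `L` of the cycles instead of `p`, and with the index set of all `U` which
are directions of `k`-sets instead of the `U` of rank 1 or 2. (The submodule `dir p s` of a translate `w + s'` is the image of
`dir p s'`, see `AG.dir_image`.)
-/

set_option autoImplicit false

namespace Pool.Agent.H.MP_0d0865_co.AH

open Pool.Agent.H.MP_0d0865_co.AG (dir Dcp dir_image)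

private theorem Asm_inj {p : ℕ} [Fact p.Prime] {V : Type} [AddCommGroup V] [Module (ZMod p) V]
    (U : Submodule (ZMod p) V) (w : V) :
    Function.Injective (fun u : U => w + U.subtype u) := by
  intro a b h
  have h' : w + (a : V) = w + (b : V) := h
  exact Subtype.ext (add_left_cancel h')

/-- The `k`-set of a translated cycle. -/
private theorem Asm_dir {k p : ℕ} [Fact p.Prime] {V : Type} [AddCommGroup V] [Module (ZMod p) V]
    [DecidableEq V] (U : Submodule (ZMod p) V) (w : V) (s' : Finset U) (h : Spn k p s') :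
    (s'.image fun u : U => w + U.subtype u).card = k ∧
      dir p (s'.image fun u : U => w + U.subtype u) = U := by
  refine ⟨?_, ?_⟩
  · rw [Finset.card_image_of_injective _ (Asm_inj U w)]
    exact h.1
  · rw [dir_image, h.2, Submodule.map_subtype_top]

theorem asm {k L p : ℕ} [NeZero k] [Fact p.Prime] {V : Type} [AddCommGroup V]
    [Module (ZMod p) V] [DecidableEq V] [Finite V]
    (h : ∀ U : Submodule (ZMod p) V, (∃ s : Finset V, s.card = k ∧ dir p s = U) →
      Dec k L U (Spn k p)) :
    Dec k L V (fun s => s.card = k) := by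
  classical
  have hk : 0 < k := Nat.pos_of_neZero k
  have hfin : Finite (Submodule (ZMod p) V) :=
    Finite.of_injective (fun U => (U : Set V)) SetLike.coe_injective
  let _ : Fintype V := Fintype.ofFinite V
  have hd := fun U : {U : Submodule (ZMod p) V // ∃ s : Finset V, s.card = k ∧ dir p s = U} =>
    h U.1 U.2
  simp only [Dec] at hd
  choose I iI A iA φ hS hU using hd
  choose W hW using fun U : {U : Submodule (ZMod p) V //
    ∃ s : Finset V, s.card = k ∧ dir p s = U} => exists_isCompl U.1
  let e : ∀ U : {U : Submodule (ZMod p) V // ∃ s : Finset V, s.card = k ∧ dir p s = U},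
      (W U × U.1) ≃ V :=
    fun U => (Submodule.prodEquivOfIsCompl (W U) U.1 (hW U).symm).toEquiv
  have he : ∀ U w u, e U (w, u) = (w : V) + (u : V) := fun U w u =>
    Submodule.coe_prodEquivOfIsCompl' (W U) U.1 (hW U).symm (w, u)
  let Φ : ∀ x : (Σ U : {U : Submodule (ZMod p) V //
      ∃ s : Finset V, s.card = k ∧ dir p s = U}, I U),
      (W x.1 × A x.1 x.2) × ZMod L ≃ V :=
    fun x => (Equiv.prodAssoc _ _ _).trans
      ((Equiv.prodCongr (Equiv.refl _) (φ x.1 x.2)).trans (e x.1))
  have hΦ : ∀ U i w a x, Φ ⟨U, i⟩ ((w, a), x) = (w : V) + U.1.subtype (φ U i (a, x)) := by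
    intro U i w a x
    exact he U w (φ U i (a, x))
  have hT : ∀ U i w a x, T k (Φ ⟨U, i⟩) ((w, a), x) =
      (T k (φ U i) (a, x)).image (fun u : U.1 => (w : V) + U.1.subtype u) := by
    intro U i w a x
    exact T_image (φ U i) (fun u : U.1 => (w : V) + U.1.subtype u) (Φ ⟨U, i⟩) a (w, a) x
      (fun y => hΦ U i w a y)
  let _ : Fintype {U : Submodule (ZMod p) V //
    ∃ s : Finset V, s.card = k ∧ dir p s = U} := Fintype.ofFinite _
  let _ : ∀ U, Fintype (I U) := iI
  let _ : ∀ U i, Fintype (A U i) := iA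
  refine ⟨(Σ U : {U : Submodule (ZMod p) V //
    ∃ s : Finset V, s.card = k ∧ dir p s = U}, I U), inferInstance,
    fun x => W x.1 × A x.1 x.2, fun x => inferInstance, Φ, ?_, ?_⟩
  · rintro ⟨U, i⟩ ⟨⟨w, a⟩, x⟩
    change (T k (Φ ⟨U, i⟩) ((w, a), x)).card = k
    rw [hT]
    exact (Asm_dir U.1 w _ (hS U i (a, x))).1
  · intro s hs
    have hs3 : s.card = k := hs
    obtain ⟨U, hU0⟩ : ∃ U : {U : Submodule (ZMod p) V //
      ∃ s : Finset V, s.card = k ∧ dir p s = U}, U.1 = dir p s :=
      ⟨⟨_, s, hs3, rfl⟩, rfl⟩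
    obtain ⟨a0, ha0⟩ : s.Nonempty := by
      rw [← Finset.card_pos, hs3]
      exact hk
    obtain ⟨⟨w, u⟩, hwu⟩ := (e U).surjective a0
    rw [he] at hwu
    have hmem : ∀ y ∈ s, y - (w : V) ∈ U.1 := by
      intro y hy
      have h3 : y - a0 ∈ U.1 := by
        rw [hU0]
        exact Submodule.subset_span ⟨y, hy, a0, ha0, rfl⟩
      have h4 := U.1.add_mem h3 u.2
      rw [← hwu] at h4
      have h5 : y - ((w : V) + (u : V)) + (u : V) = y - (w : V) := by abel
      rwa [h5] at h4
    have hs' : ∃ s' : Finset U.1, s'.image (fun u : U.1 => (w : V) + U.1.subtype u) = s := by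
      refine ⟨Finset.univ.filter (fun u : U.1 => (w : V) + (u : V) ∈ s), ?_⟩
      ext y
      simp only [Finset.mem_image, Finset.mem_filter, Finset.mem_univ, true_and,
        Submodule.subtype_apply]
      constructor
      · rintro ⟨u', hu', rfl⟩
        exact hu'
      · intro hy
        exact ⟨⟨y - (w : V), hmem y hy⟩, by simpa using hy, by simp⟩
    obtain ⟨s', hs'⟩ := hs'
    have hspn : Spn k p s' := by
      refine ⟨?_, ?_⟩
      · have h13 := Finset.card_image_of_injective s' (Asm_inj U.1 (w : V))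
        rw [hs', hs3] at h13
        exact h13.symm
      · apply Submodule.map_injective_of_injective U.1.injective_subtype
        rw [← dir_image U.1.subtype (w : V) s', hs', Submodule.map_subtype_top, hU0]
    obtain ⟨⟨i, ⟨a, x⟩⟩, hx, hux⟩ := hU U s' hspn
    refine ⟨⟨⟨U, i⟩, ((w, a), x)⟩, ?_, ?_⟩
    · change s = T k (Φ ⟨U, i⟩) ((w, a), x)
      rw [hT, ← hs']
      exact congrArg _ hx
    · rintro ⟨⟨U', i'⟩, ⟨⟨w', a'⟩, x'⟩⟩ hz
      have hz' : s = T k (Φ ⟨U', i'⟩) ((w', a'), x') := hz
      rw [hT] at hz'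
      have hUU : U' = U := by
        apply Subtype.ext
        rw [hU0, hz']
        exact (Asm_dir U'.1 w' _ (hS U' i' (a', x'))).2.symm
      subst hUU
      have hw : w' = w := by
        have hm : (w' : V) + U'.1.subtype (φ U' i' (a', x' + (((⟨0, hk⟩ : Fin k) : ℕ) : ZMod L))) ∈
            s := by
          rw [hz']
          exact Finset.mem_image_of_mem _
            (Finset.mem_image_of_mem (fun i : Fin k => φ U' i' (a', x' + ((i : ℕ) : ZMod L)))
              (Finset.mem_univ (⟨0, hk⟩ : Fin k)))
        rw [← hs', Finset.mem_image] at hm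
        obtain ⟨u', -, hu'⟩ := hm
        have h6 : e U' (w, u') =
            e U' (w', φ U' i' (a', x' + (((⟨0, hk⟩ : Fin k) : ℕ) : ZMod L))) := by
          rw [he, he]
          exact hu'
        have h7 := (e U').injective h6
        exact (congrArg Prod.fst h7).symm
      subst hw
      have h8 : s' = T k (φ U' i') (a', x') :=
        Finset.image_injective (Asm_inj U'.1 w') (hs'.trans hz')
      have h9 := hux ⟨i', (a', x')⟩ h8
      simp only [Sigma.mk.injEq] at h9
      obtain ⟨h10, h11⟩ := h9
      subst h10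
      have h12 := eq_of_heq h11
      rw [Prod.mk.injEq] at h12
      obtain ⟨rfl, rfl⟩ := h12
      rfl

end Pool.Agent.H.MP_0d0865_co.AH
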