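import Pool.Agent.H.MP_0d0865_co.AH.Def

/-!
# Out: the final form

PROOF. As in `AG.Out`, with `k` and `L` instead of 3 and `p`. `V ≃ Fin n` (`Fintype.equivFinOfCardEq`), `I ≃ Fin r`, `r = card I`, and
`A i ≃ Fin m` for every `i`, as `card (A i) * L = card V = m * L`. `Σ i : Fin m, ZMod L ≃ Fin m × ZMod L` (`Equiv.sigmaEquivProd`).
Compose everything; the image over `Finset.range k` is the image over `Fin k` (`Fin.exists_iff` and `Finset.mem_image`).
-/

set_option autoImplicit false

namespace Pool.Agent.H.MP_0d0865_co.AH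

open Pool.Agent.H.MP_0d0865_co.AG (dir Dcp)

theorem out {k L n m : ℕ} (hL : 0 < L) {V : Type} [Fintype V] [DecidableEq V]
    (hV : Fintype.card V = n) (hn : n = m * L) (h : Dec k L V (fun s => s.card = k)) :
    Dcp k n (fun _ : Fin m => L) := by
  classical
  have : NeZero L := ⟨hL.ne'⟩
  obtain ⟨I, hI, A, hA, φ, h1, h2⟩ := h
  let e : V ≃ Fin n := Fintype.equivFinOfCardEq hV
  let eI : Fin (Fintype.card I) ≃ I := (Fintype.equivFin I).symm
  have cA : ∀ i, Fintype.card (A i) = m := by
    intro i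
    have h3 := Fintype.card_congr (φ i)
    rw [Fintype.card_prod, ZMod.card, hV, hn] at h3
    exact Nat.eq_of_mul_eq_mul_right hL h3
  let eA : ∀ i, Fin m ≃ A i := fun i => (Fintype.equivFinOfCardEq (cA i)).symm
  let E : Fin (Fintype.card I) × (Σ _ : Fin m, ZMod L) ≃ Σ i, A i × ZMod L :=
    Equiv.ofBijective (fun q => ⟨eI q.1, (eA (eI q.1) q.2.1, q.2.2)⟩) (by
      constructor
      · rintro ⟨i, a, z⟩ ⟨j, b, w⟩ h3
        simp only [Sigma.mk.injEq] at h3
        obtain ⟨h4, h5⟩ := h3
        have h6 := eI.injective h4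
        subst h6
        have h7 := eq_of_heq h5
        rw [Prod.mk.injEq] at h7
        obtain ⟨h8, h9⟩ := h7
        have h10 := (eA (eI i)).injective h8
        subst h10
        subst h9
        rfl
      · rintro ⟨i, a, z⟩
        obtain ⟨j, rfl⟩ := eI.surjective i
        obtain ⟨b, rfl⟩ := (eA (eI j)).surjective a
        exact ⟨(j, ⟨b, z⟩), rfl⟩)
  refine ⟨Fintype.card I, fun i => ⟨fun q => e (φ (eI i) (eA (eI i) q.1, q.2)), ?_⟩, ?_⟩
  · rintro ⟨a, z⟩ ⟨b, w⟩ hab
    have h3 := (φ (eI i)).injective (e.injective hab)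
    rw [Prod.mk.injEq] at h3
    obtain ⟨h4, h5⟩ := h3
    have h6 := (eA (eI i)).injective h4
    dsimp only at h5 h6
    subst h6
    subst h5
    rfl
  · intro s hs
    have hs' : (s.image e.symm).card = k := by
      rw [Finset.card_image_of_injective _ e.symm.injective, hs]
    refine (Equiv.existsUnique_congr E ?_).mpr (h2 (s.image e.symm) hs')
    intro q
    rw [← (Finset.image_injective e.symm.injective).eq_iff, Finset.image_image]
    have h3 : (Finset.range k).image (e.symm ∘ fun j : ℕ =>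
        e (φ (eI q.1) (eA (eI q.1) q.2.1, q.2.2 + (j : ZMod L)))) =
          T k (φ (E q).1) (E q).2 := by
      unfold T
      ext v
      simp only [Finset.mem_image, Finset.mem_range, Finset.mem_univ, true_and,
        Function.comp_apply, Equiv.symm_apply_apply]
      constructor
      · rintro ⟨j, hj, rfl⟩
        exact ⟨⟨j, hj⟩, rfl⟩
      · rintro ⟨j, rfl⟩
        exact ⟨j, j.2, rfl⟩
    exact ⟨fun h4 => h4.trans h3, fun h4 => h4.trans h3.symm⟩

end Pool.Agent.H.MP_0d0865_co.AH
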