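import Pool.Agent.H.MP_0d0865_co.AH.Def
import Pool.Agent.H.MP_0d0865_co.AG.Tra

/-!
# Rnk: the dimension of the directions of four points over the field with 3 elements

PROOF. `s = {a, b, c, d}` (`Finset.card_eq_succ` or `Finset.card_eq_three` after `Finset.exists_mem`, ...). `dir 3 s` is the span of
`b - a`, `c - a`, `d - a`, so its rank is at most 3 (`finrank_span_le_card`, `Submodule.finrank_mono`). If the rank is at most 1 then `dir 3 s` has
at most 3 elements (`Module.card_eq_pow_finrank`, or `Nat.card`), but `x ↦ x - a` is an injection of `s` into it: a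
contradiction to `s.card = 4`. (`dir 3 s` is spanned by a finite set, so it is finite dimensional.)
-/

set_option autoImplicit false

namespace Pool.Agent.H.MP_0d0865_co.AH

open Pool.Agent.H.MP_0d0865_co.AG (dir Dcp)

theorem rank4 [Fact (Nat.Prime 3)] {V : Type} [AddCommGroup V] [Module (ZMod 3) V]
    {s : Finset V} (hs : s.card = 4) :
    Module.finrank (ZMod 3) (dir 3 s) = 2 ∨ Module.finrank (ZMod 3) (dir 3 s) = 3 := by
  classical
  obtain ⟨a, ha⟩ : s.Nonempty := by
    rw [← Finset.card_pos, hs]
    norm_num
  have h1 : ∀ x ∈ s, x - a ∈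
      Submodule.span (ZMod 3) ((((s.erase a).image fun x => x - a : Finset V)) : Set V) := by
    intro x hx
    by_cases hxa : x = a
    · rw [hxa, sub_self]
      exact Submodule.zero_mem _
    · exact Submodule.subset_span (Finset.mem_coe.2
        (Finset.mem_image_of_mem _ (Finset.mem_erase.2 ⟨hxa, hx⟩)))
  have h2 : dir 3 s ≤
      Submodule.span (ZMod 3) ((((s.erase a).image fun x => x - a : Finset V)) : Set V) := by
    unfold dir
    rw [Submodule.span_le]
    rintro _ ⟨x, hx, y, hy, rfl⟩
    have h3 : x - y = (x - a) - (y - a) := by abel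
    rw [SetLike.mem_coe, h3]
    exact Submodule.sub_mem _ (h1 x hx) (h1 y hy)
  have hfin : FiniteDimensional (ZMod 3)
      (Submodule.span (ZMod 3) ((((s.erase a).image fun x => x - a : Finset V)) : Set V)) :=
    FiniteDimensional.span_finset _ _
  have h4 : Module.finrank (ZMod 3) (dir 3 s) ≤ 3 := by
    refine (Submodule.finrank_mono h2).trans ((finrank_span_finset_le_card _).trans ?_)
    refine Finset.card_image_le.trans ?_
    rw [Finset.card_erase_of_mem ha, hs]
  have hfin2 : FiniteDimensional (ZMod 3) (dir 3 s) :=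
    Submodule.finiteDimensional_of_le h2
  have hfin3 : Finite (dir 3 s) := Module.finite_of_finite (ZMod 3)
  have h5 : Nat.card (dir 3 s) = 3 ^ Module.finrank (ZMod 3) (dir 3 s) := by
    haveI := Fintype.ofFinite (dir 3 s)
    rw [Nat.card_eq_fintype_card, Module.card_eq_pow_finrank (K := ZMod 3), ZMod.card]
  have h6 : 4 ≤ Nat.card (dir 3 s) := by
    have h7 : Function.Injective (fun x : {x // x ∈ s} =>
        (⟨x.1 - a, Submodule.subset_span ⟨x.1, x.2, a, ha, rfl⟩⟩ : dir 3 s)) := by
      intro x y hxy
      have h8 := congrArg Subtype.val hxy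
      exact Subtype.ext (sub_left_inj.1 h8)
    have h9 := Nat.card_le_card_of_injective _ h7
    rwa [Nat.card_eq_fintype_card, Fintype.card_coe, hs] at h9
  rw [h5] at h6
  have h10 : 2 ≤ Module.finrank (ZMod 3) (dir 3 s) := by
    by_contra hlt
    have h11 : 3 ^ Module.finrank (ZMod 3) (dir 3 s) ≤ 3 ^ 1 :=
      Nat.pow_le_pow_right (by norm_num) (by omega)
    omega
  omega

end Pool.Agent.H.MP_0d0865_co.AH
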