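import Pool.Agent.H.MP_0d0865_co.AH.Asm
import Pool.Agent.H.MP_0d0865_co.AH.Out
import Pool.Agent.H.MP_0d0865_co.AH.Rnk

/-!
# Cmb: the combination

PROOF. `out` with `V = Fin d → ZMod 3` (`3 ^ d` elements, `3 ^ d = 3 ^ (d - 2) * 9` as `2 ≤ d`) and `asm`: a submodule which is the direction of a set of
four points has rank 2 or 3 (`rank4`), so there is a linear equivalence with `ZMod 3 × ZMod 3` or `V3` (`LinearEquiv.ofFinrankEq`,
the ranks by `simp` and `Module.finrank_prod`), and `Dec.equiv`.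
-/

set_option autoImplicit false

namespace Pool.Agent.H.MP_0d0865_co.AH

open Pool.Agent.H.MP_0d0865_co.AG (dir Dcp)

theorem cmb [Fact (Nat.Prime 3)] (h2 : Dec 4 9 (ZMod 3 × ZMod 3) (Spn 4 3))
    (h3 : Dec 4 9 V3 (Spn 4 3)) (d : ℕ) (hd : 2 ≤ d) :
    Dcp 4 (3 ^ d) (fun _ : Fin (3 ^ (d - 2)) => 9) := by
  have hn : 3 ^ d = 3 ^ (d - 2) * 9 := by
    obtain ⟨c, rfl⟩ := Nat.exists_eq_add_of_le' hd
    rw [Nat.add_sub_cancel, pow_add]
    norm_num
  refine out (by norm_num) (V := Fin d → ZMod 3) (by simp [ZMod.card]) hn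
    (asm (p := 3) fun U hU => ?_)
  obtain ⟨s, hs, rfl⟩ := hU
  rcases rank4 hs with hr | hr
  · have e : (ZMod 3 × ZMod 3) ≃ₗ[ZMod 3] (dir 3 s) := LinearEquiv.ofFinrankEq _ _ (by
      rw [hr, Module.finrank_prod, Module.finrank_self])
    exact Dec.equiv e h2
  · have e : V3 ≃ₗ[ZMod 3] (dir 3 s) := LinearEquiv.ofFinrankEq _ _ (by
      rw [hr, Module.finrank_prod, Module.finrank_prod, Module.finrank_self])
    exact Dec.equiv e h3

end Pool.Agent.H.MP_0d0865_co.AH
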