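import Pool.Agent.H.MP_0d0865_co.AH.DatA

/-!
# DatB: small checks of the tables
-/

set_option autoImplicit false

namespace Pool.Agent.H.MP_0d0865_co.AH

theorem sb_cod : ∀ a b : V3, cod (a - b) = sb (cod a) (cod b) := by
  decide +kernel

theorem cod_inj : ∀ a b : V3, cod a = cod b → a = b := by
  decide +kernel

theorem cod_lt : ∀ a : V3, cod a < 27 := by
  decide +kernel

theorem cod_P : ∀ (j : Fin 52) (x : ZMod 9), cod (P4 j x) = pc j.val (x : Fin 9).val := by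
  decide +kernel

/-- The cross product. -/
def crs (v w : V3) : V3 :=
  (v.2.1 * w.2.2 - v.2.2 * w.2.1, -(v.1 * w.2.2 - v.2.2 * w.1), v.1 * w.2.1 - v.2.1 * w.1)

theorem crs_cod : ∀ v w : V3, cod (crs v w) = crt (cod v) (cod w) := by
  decide +kernel

theorem dtt_cod : ∀ u c : V3, u.1 * c.1 + u.2.1 * c.2.1 + u.2.2 * c.2.2 ≠ 0 →
    dtt (cod u) (cod c) = 1 := by
  decide +kernel

theorem sh_val : ∀ (x : ZMod 9) (i : Fin 4),
    ((x + ((i : ℕ) : ZMod 9) : ZMod 9) : Fin 9).val = ((x : Fin 9).val + i.val) % 9 := by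
  decide +kernel

theorem perm_mem : ∀ σ : Equiv.Perm (Fin 4),
    ((σ 0).val, (σ 1).val, (σ 2).val, (σ 3).val) ∈ PL := by
  decide +kernel

theorem PL_perm : ∀ r : Fin 24, ∃ σ : Equiv.Perm (Fin 4),
    PL.getD r.val (0, 0, 0, 0) = ((σ 0).val, (σ 1).val, (σ 2).val, (σ 3).val) := by
  decide +kernel

theorem wt4 : ∀ j, det3 (w4 j) (a4 j) (b4 j) ≠ 0 := by
  decide +kernel

end Pool.Agent.H.MP_0d0865_co.AH
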