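import Pool.Agent.H.MP_0d0865_co.AH.DatA

/-!
# DatE: the check of existence
-/

set_option autoImplicit false

namespace Pool.Agent.H.MP_0d0865_co.AH

/-- The check for three differences. -/
def chk (u v z r : ℕ) (ρ : ℕ × ℕ × ℕ × ℕ) : Bool :=
  (sb (pc (r / 216) (r / 24 % 9 + 1)) (pc (r / 216) (r / 24 % 9)) == sb (zz u v z ρ.2.1) (zz u v z ρ.1)) &&
  ((sb (pc (r / 216) (r / 24 % 9 + 2)) (pc (r / 216) (r / 24 % 9)) == sb (zz u v z ρ.2.2.1) (zz u v z ρ.1)) &&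
  ((sb (pc (r / 216) (r / 24 % 9 + 3)) (pc (r / 216) (r / 24 % 9)) == sb (zz u v z ρ.2.2.2) (zz u v z ρ.1)) &&
  decide (r / 216 < 52)))

theorem chkE : ∀ u v z : Fin 27, dtt u.val (crt v.val z.val) = 0 ∨
    chk u.val v.val z.val (loc u.val v.val z.val)
      (PL.getD (loc u.val v.val z.val % 24) (0, 0, 0, 0)) = true := by
  decide +kernel

end Pool.Agent.H.MP_0d0865_co.AH
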