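import Pool.Agent.H.MP_0d0865_co.AH.DatA

/-!
# DatT: the cycles are transversal, and their sets span
-/

set_option autoImplicit false

namespace Pool.Agent.H.MP_0d0865_co.AH

theorem trc : ∀ (j : Fin 52) (x x' : Fin 9), x = x' ∨
    (sb (pc j.val x.val) (pc j.val x'.val) ≠ 0 ∧ sb (pc j.val x.val) (pc j.val x'.val) ≠ wc j.val ∧
      sb (pc j.val x.val) (pc j.val x'.val) ≠ sb 0 (wc j.val)) := by
  decide +kernel

theorem ncc : ∀ (j : Fin 52) (x : Fin 9), dtt (sb (pc j.val (x.val + 1)) (pc j.val x.val))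
    (crt (sb (pc j.val (x.val + 2)) (pc j.val x.val)) (sb (pc j.val (x.val + 3)) (pc j.val x.val))) = 1 := by
  decide +kernel

end Pool.Agent.H.MP_0d0865_co.AH
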