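import Pool.Agent.H.MP_0d0865_co.AH.DatA

/-!
# DatU: the check of uniqueness
-/

set_option autoImplicit false

namespace Pool.Agent.H.MP_0d0865_co.AH

theorem chkU : ∀ (j : Fin 52) (x : Fin 9), (PL.all fun ρ =>
    loc (sb (pc j.val (x.val + ρ.2.1)) (pc j.val (x.val + ρ.1)))
      (sb (pc j.val (x.val + ρ.2.2.1)) (pc j.val (x.val + ρ.1)))
      (sb (pc j.val (x.val + ρ.2.2.2)) (pc j.val (x.val + ρ.1))) / 24 == 9 * j.val + x.val) = true := by
  decide +kernel

end Pool.Agent.H.MP_0d0865_co.AH
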