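import Pool.Agent.H.MP_0d0865_co.AH.DatB
import Pool.Agent.H.MP_0d0865_co.AH.DatT
import Pool.Agent.H.MP_0d0865_co.AH.DatU
import Pool.Agent.H.MP_0d0865_co.AH.DatE

/-!
# DatC: the finite data for the space
-/

set_option autoImplicit false

namespace Pool.Agent.H.MP_0d0865_co.AH

theorem pc_mod (j x : ℕ) : pc j (x % 9) = pc j x := by
  unfold pc
  rw [Nat.mod_mod]

/-- The code of a difference of elements of a cycle. -/
theorem cod_df (j : Fin 52) (x : ZMod 9) (a b : Fin 4) :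
    cod (P4 j (x + ((a : ℕ) : ZMod 9)) - P4 j (x + ((b : ℕ) : ZMod 9))) =
      sb (pc j.val (x.val + a.val)) (pc j.val (x.val + b.val)) := by
  rw [sb_cod, cod_P, cod_P, sh_val, sh_val, pc_mod, pc_mod]

theorem cod_df0 (j : Fin 52) (x : ZMod 9) (a : Fin 4) :
    cod (P4 j (x + ((a : ℕ) : ZMod 9)) - P4 j x) =
      sb (pc j.val (x.val + a.val)) (pc j.val x.val) := by
  have := cod_df j x a 0
  simpa using this

theorem chkU' (j : Fin 52) (x : ZMod 9) (ρ : ℕ × ℕ × ℕ × ℕ) (h : ρ ∈ PL) :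
    loc (sb (pc j.val (x.val + ρ.2.1)) (pc j.val (x.val + ρ.1)))
      (sb (pc j.val (x.val + ρ.2.2.1)) (pc j.val (x.val + ρ.1)))
      (sb (pc j.val (x.val + ρ.2.2.2)) (pc j.val (x.val + ρ.1))) / 24 = 9 * j.val + x.val := by
  have hv : Fin.val (n := 9) x = x.val := rfl
  have h1 := List.all_eq_true.1 (chkU j x) ρ h
  rw [beq_iff_eq] at h1
  rw [hv] at h1
  exact h1

theorem dat_un (j : Fin 52) (x : ZMod 9) (j' : Fin 52) (x' : ZMod 9) (σ : Equiv.Perm (Fin 4))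
    (h : ∀ i : Fin 4, P4 j' (x' + ((i : ℕ) : ZMod 9)) - P4 j' x' =
      P4 j (x + ((σ i : ℕ) : ZMod 9)) - P4 j (x + ((σ 0 : ℕ) : ZMod 9))) : j = j' ∧ x = x' := by
  have hc : ∀ i : Fin 4, sb (pc j'.val (x'.val + i.val)) (pc j'.val x'.val) =
      sb (pc j.val (x.val + (σ i).val)) (pc j.val (x.val + (σ 0).val)) := by
    intro i
    rw [← cod_df0, ← cod_df, h i]
  have h1 := chkU' j x _ (perm_mem σ)
  have h2 := chkU' j' x' (0, 1, 2, 3) (perm_mem 1)
  have e1 := hc 1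
  have e2 := hc 2
  have e3 := hc 3
  simp only [Fin.val_one, Fin.val_two] at e1 e2 e3
  rw [show ((3 : Fin 4) : ℕ) = 3 from rfl] at e3
  simp only [Nat.add_zero] at h2
  rw [e1, e2, e3] at h2
  have h3 := h1.symm.trans h2
  have hx := ZMod.val_lt x
  have hx' := ZMod.val_lt x'
  constructor
  · apply Fin.ext
    omega
  · exact ZMod.val_injective 9 (by omega)

theorem zz_cod (u v z : V3) (k : Fin 4) :
    cod ((![0, u, v, z] : Fin 4 → V3) k) = zz (cod u) (cod v) (cod z) k.val := by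
  fin_cases k <;> rfl

theorem dat_ex (u v z : V3) (hd : det3 u v z ≠ 0) :
    ∃ (j : Fin 52) (x : ZMod 9) (σ : Equiv.Perm (Fin 4)),
    ∀ i : Fin 4, P4 j (x + ((i : ℕ) : ZMod 9)) - P4 j x =
      (![0, u, v, z] : Fin 4 → V3) (σ i) - (![0, u, v, z] : Fin 4 → V3) (σ 0) := by
  have h0 : dtt (cod u) (crt (cod v) (cod z)) = 1 := by
    rw [← crs_cod]
    apply dtt_cod
    intro h
    apply hd
    rw [← h]
    simp only [det3, crs]
    ring
  have h1 := chkE ⟨cod u, cod_lt u⟩ ⟨cod v, cod_lt v⟩ ⟨cod z, cod_lt z⟩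
  simp only at h1
  rw [h0] at h1
  have h2 := h1.resolve_left one_ne_zero
  obtain ⟨σ, hσ⟩ := PL_perm ⟨loc (cod u) (cod v) (cod z) % 24, Nat.mod_lt _ (by norm_num)⟩
  simp only at hσ
  rw [hσ] at h2
  generalize loc (cod u) (cod v) (cod z) = r at h2
  simp only [chk, Bool.and_eq_true, beq_iff_eq, decide_eq_true_eq] at h2
  obtain ⟨c1, c2, c3, c4⟩ := h2
  have hx : (((r / 24 % 9 : ℕ) : ZMod 9)).val = r / 24 % 9 :=
    ZMod.val_natCast_of_lt (Nat.mod_lt _ (by norm_num))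
  refine ⟨⟨r / 216, c4⟩, ((r / 24 % 9 : ℕ) : ZMod 9), σ, ?_⟩
  intro i
  by_cases hi : i = 0
  · subst hi
    simp
  apply cod_inj
  rw [cod_df0, sb_cod, zz_cod, zz_cod, hx]
  have hi' : i = 1 ∨ i = 2 ∨ i = 3 := by
    revert hi; revert i; decide
  rcases hi' with rfl | rfl | rfl
  · exact c1
  · exact c2
  · exact c3

theorem dtt_ne : ∀ u c : V3, dtt (cod u) (cod c) = 1 →
    u.1 * c.1 + u.2.1 * c.2.1 + u.2.2 * c.2.2 ≠ 0 := by
  decide +kernel

theorem cod_w : ∀ j : Fin 52, cod (w4 j) = wc j.val := by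
  decide +kernel

theorem zmod3 : ∀ c : ZMod 3, c = 0 ∨ c = 1 ∨ c = -1 := by
  decide

theorem dat_nc (j : Fin 52) (x : ZMod 9) :
    det3 (P4 j (x + 1) - P4 j x) (P4 j (x + 2) - P4 j x) (P4 j (x + 3) - P4 j x) ≠ 0 := by
  have hv : Fin.val (n := 9) x = x.val := rfl
  have h1 := ncc j x
  rw [hv] at h1
  have e1 := cod_df0 j x 1
  have e2 := cod_df0 j x 2
  have e3 := cod_df0 j x 3
  simp only [Fin.val_one, Fin.val_two, Nat.cast_one, Nat.cast_ofNat] at e1 e2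
  rw [show ((3 : Fin 4) : ℕ) = 3 from rfl, Nat.cast_ofNat] at e3
  rw [← e1, ← e2, ← e3, ← crs_cod] at h1
  intro h
  apply dtt_ne _ _ h1
  rw [← h]
  simp only [det3, crs]
  ring

theorem dat_tr (j : Fin 52) (x x' : ZMod 9) (c : ZMod 3) (h : P4 j x - P4 j x' = c • w4 j) :
    x = x' := by
  have hv : Fin.val (n := 9) x = x.val := rfl
  have hv' : Fin.val (n := 9) x' = x'.val := rfl
  have h1 := trc j x x'
  rw [hv, hv'] at h1
  rcases h1 with h1 | ⟨h1, h2, h3⟩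
  · exact h1
  have hs : sb (pc j.val x.val) (pc j.val x'.val) = cod (c • w4 j) := by
    rw [← h, sb_cod, cod_P, cod_P]
  exfalso
  rcases zmod3 c with rfl | rfl | rfl
  · apply h1
    rw [hs, zero_smul]
    rfl
  · apply h2
    rw [hs, one_smul, cod_w]
  · apply h3
    rw [hs, neg_smul, one_smul, ← zero_sub, sb_cod, cod_w]
    rfl

/-- The finite data. -/
theorem dat4 : Dat4 52 P4 w4 a4 b4 where
  ex := dat_ex
  un := dat_un
  nc := dat_nc
  tr := dat_tr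
  wt := wt4

end Pool.Agent.H.MP_0d0865_co.AH
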