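import Pool.Agent.H.MP_0d0865_co.AG.Def

/-!
# MP_0d0865_co, affine spaces, `k`-sets: definitions of the proof

`dir` and `Dcp` are those of `AG.Def`.
-/

set_option autoImplicit false

namespace Pool.Agent.H.MP_0d0865_co.AH

open Pool.Agent.H.MP_0d0865_co.AG (dir Dcp)

/-- The `k`-set at the place `q` of the cycles `φ` of length `L`. -/
def T (k : ℕ) {L : ℕ} {A V : Type} [DecidableEq V] (φ : A × ZMod L → V) (q : A × ZMod L) :
    Finset V :=
  Finset.univ.image fun i : Fin k => φ (q.1, q.2 + ((i : ℕ) : ZMod L))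

/-- The `k`-sets which span the space. -/
def Spn (k p : ℕ) [Fact p.Prime] {V : Type} [AddCommGroup V] [Module (ZMod p) V] (s : Finset V) :
    Prop := s.card = k ∧ dir p s = ⊤

/-- The `k`-sets with the property `S` decompose into factors which consist of cycles of length `L`. -/
def Dec (k L : ℕ) (V : Type) [DecidableEq V] (S : Finset V → Prop) : Prop :=
  ∃ (I : Type) (_ : Fintype I) (A : I → Type) (_ : ∀ i, Fintype (A i))
    (φ : ∀ i, A i × ZMod L ≃ V), (∀ i q, S (T k (φ i) q)) ∧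
      ∀ s, S s → ∃! x : (Σ i, A i × ZMod L), s = T k (φ x.1) x.2

/-- The space. -/
abbrev V3 : Type := ZMod 3 × ZMod 3 × ZMod 3

/-- The determinant. -/
def det3 (u v w : V3) : ZMod 3 :=
  u.1 * (v.2.1 * w.2.2 - v.2.2 * w.2.1) - u.2.1 * (v.1 * w.2.2 - v.2.2 * w.1) +
    u.2.2 * (v.1 * w.2.1 - v.2.1 * w.1)

/-- The finite data for the space: the cycles `P j`, transversal to the direction `w j`; `w j`, `t j`, `t' j` is
a basis. -/
structure Dat4 (N : ℕ) (P : Fin N → ZMod 9 → V3) (w t t' : Fin N → V3) : Prop where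
  ex : ∀ u v z : V3, det3 u v z ≠ 0 → ∃ (j : Fin N) (x : ZMod 9) (σ : Equiv.Perm (Fin 4)),
    ∀ i : Fin 4, P j (x + ((i : ℕ) : ZMod 9)) - P j x =
      (![0, u, v, z] : Fin 4 → V3) (σ i) - (![0, u, v, z] : Fin 4 → V3) (σ 0)
  un : ∀ (j : Fin N) (x : ZMod 9) (j' : Fin N) (x' : ZMod 9) (σ : Equiv.Perm (Fin 4)),
    (∀ i : Fin 4, P j' (x' + ((i : ℕ) : ZMod 9)) - P j' x' =
      P j (x + ((σ i : ℕ) : ZMod 9)) - P j (x + ((σ 0 : ℕ) : ZMod 9))) → j = j' ∧ x = x'
  nc : ∀ j x, det3 (P j (x + 1) - P j x) (P j (x + 2) - P j x) (P j (x + 3) - P j x) ≠ 0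
  tr : ∀ j x x' (c : ZMod 3), P j x - P j x' = c • w j → x = x'
  wt : ∀ j, det3 (w j) (t j) (t' j) ≠ 0

end Pool.Agent.H.MP_0d0865_co.AH
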