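import Pool.Agent.H.MP_0d0865_co.AH.Pln

/-!
# PlnD: the Hamilton decomposition of the complete 4-graph on 9 points

PROOF. 14 cycles; the number `msk s` of a set `s` determines the place at which it occurs, so the 126 sets are different; they
are all sets of four points, as there are 126 of them.
-/

set_option autoImplicit false

namespace Pool.Agent.H.MP_0d0865_co.AH

/-- The cycles. -/
def q9 (j : Fin 14) (x : ZMod 9) : ZMod 3 × ZMod 3 :=
  ((Fin.ofNat 3 ((0x374025168273614058172503648071462538670351428576240318475136208357421068247310658137206548027165438617054328507643218467532108 >>> (4 * (9 * j.val + x.val))) % 16) : Fin 3),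
    (Fin.ofNat 3 (((0x374025168273614058172503648071462538670351428576240318475136208357421068247310658137206548027165438617054328507643218467532108 >>> (4 * (9 * j.val + x.val))) % 16) / 3) : Fin 3))

/-- The number of a set. -/
def msk (s : Finset (ZMod 3 × ZMod 3)) : ℕ := ∑ v ∈ s, 2 ^ (v.1.val + 3 * v.2.val)

/-- The place of a set. -/
def lcm9 (m : ℕ) : ℕ := (0x4e00000000000000000000000000060000000000007c00000580062b8000000000000000000000000000450000000000003c0000073013c7800000000000007b000003301aa300000007200ab08001a5080c00000000000000000000000000000000240000000000003d000003501d568000000000000063000005901ac380000001a01f5f000065f806c000000000000000001b000003400b3600000005a01431000047a002000000000001200ad180014638010000000025100900000000000000000000000000000000000000000000000500000000000004000004d00787000000000000000c000004c0178680000007101c2b00007d3802e000000000000000003b000003a0110a800000003010ea8001a33802c00000000003200c7d0000e7c80be0000000a54006000000400000000000000000000000001c000005c0075280000005b010b28001d93005c00000000000b01bf2000176580dc0000001060005e000006e0000000000000000013014ca00014bc00da00000000b300a800000ee000000000000002a5009200000700000000000000200000000000000000000000000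 >>> (7 * m)) % 128

/-- The sets. -/
def f9 (x : Fin 14 × ZMod 9) : Finset (ZMod 3 × ZMod 3) :=
  Finset.univ.image fun i : Fin 4 => q9 x.1 (x.2 + ((i : ℕ) : ZMod 9))

theorem q9_inj : ∀ (j : Fin 14) (x y : ZMod 9), q9 j x = q9 j y → x = y := by
  decide +kernel

theorem f9_chk : ∀ (j : Fin 14) (x : ZMod 9), lcm9 (msk (f9 (j, x))) = 9 * j.val + x.val ∧
    (f9 (j, x)).card = 4 := by
  decide +kernel

theorem f9_inj : Function.Injective f9 := by
  rintro ⟨j, x⟩ ⟨j', x'⟩ h
  have h1 := (f9_chk j x).1
  have h2 := (f9_chk j' x').1
  rw [h, h2] at h1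
  have hx := ZMod.val_lt x
  have hx' := ZMod.val_lt x'
  have e1 : j = j' := by
    apply Fin.ext
    omega
  have e2 : x = x' := ZMod.val_injective 9 (by omega)
  rw [e1, e2]

theorem f9_surj (s : Finset (ZMod 3 × ZMod 3)) (hs : s.card = 4) : ∃ x, s = f9 x := by
  have h : (Finset.univ.image f9) = (Finset.univ : Finset (ZMod 3 × ZMod 3)).powersetCard 4 := by
    apply Finset.eq_of_subset_of_card_le
    · intro t ht
      obtain ⟨⟨j, x⟩, -, rfl⟩ := Finset.mem_image.1 ht
      exact Finset.mem_powersetCard.2 ⟨Finset.subset_univ _, (f9_chk j x).2⟩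
    · rw [Finset.card_powersetCard, Finset.card_image_of_injective _ f9_inj, Finset.card_univ,
        Finset.card_univ, Fintype.card_prod, Fintype.card_prod, Fintype.card_fin, ZMod.card,
        ZMod.card]
      decide
  have hm : s ∈ Finset.univ.image f9 := by
    rw [h]
    exact Finset.mem_powersetCard.2 ⟨Finset.subset_univ _, hs⟩
  obtain ⟨x, -, hx⟩ := Finset.mem_image.1 hm
  exact ⟨x, hx.symm⟩

theorem plane9 [Fact (Nat.Prime 3)] : Dec 4 9 (ZMod 3 × ZMod 3) (Spn 4 3) := by
  refine pln (N := 14) (Q := fun j => Equiv.ofBijective (q9 j)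
    ((Fintype.bijective_iff_injective_and_card _).2 ⟨fun x y h => q9_inj j x y h, by
      rw [Fintype.card_prod, ZMod.card, ZMod.card]⟩)) ?_
  intro s hs
  obtain ⟨x, hx⟩ := f9_surj s hs
  exact ⟨x, hx, fun y hy => f9_inj (hy.symm.trans hx)⟩

end Pool.Agent.H.MP_0d0865_co.AH
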