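import Pool.Agent.H.MP_0d0865_co.AH.Def

/-!
# SpaE: existence

PROOF. Apply `ex` to `u = y 1 - y 0`, `v = y 2 - y 0`, `z = y 3 - y 0`: `![0, u, v, z] i = y i - y 0` for all `i`, so
`P j (x + i) - P j x = y (σ i) - y (σ 0)`. Take `τ = y (σ 0) - P j x`; then `P j (x + i) + τ = y (σ i)`, and the image of `y ∘ σ` is the image
of `y`.
-/

set_option autoImplicit false

namespace Pool.Agent.H.MP_0d0865_co.AH

open Pool.Agent.H.MP_0d0865_co.AG (dir Dcp)

theorem spa_ex {N : ℕ} {P : Fin N → ZMod 9 → V3} {w t t' : Fin N → V3} (h : Dat4 N P w t t')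
    (y : Fin 4 → V3) (hd : det3 (y 1 - y 0) (y 2 - y 0) (y 3 - y 0) ≠ 0) :
    ∃ (j : Fin N) (x : ZMod 9) (τ : V3), Finset.univ.image y =
      Finset.univ.image fun i : Fin 4 => P j (x + ((i : ℕ) : ZMod 9)) + τ := by
  obtain ⟨j, x, σ, hσ⟩ := h.ex _ _ _ hd
  have hy : ∀ i : Fin 4, (![0, y 1 - y 0, y 2 - y 0, y 3 - y 0] : Fin 4 → V3) i = y i - y 0 := by
    intro i
    fin_cases i
    · exact (sub_self (y 0)).symm
    · rfl
    · rfl
    · rfl
  refine ⟨j, x, y (σ 0) - P j x, ?_⟩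
  have h1 : ∀ i : Fin 4, P j (x + ((i : ℕ) : ZMod 9)) + (y (σ 0) - P j x) = y (σ i) := by
    intro i
    have h2 := hσ i
    rw [hy, hy] at h2
    have h3 : P j (x + ((i : ℕ) : ZMod 9)) + (y (σ 0) - P j x) =
        (P j (x + ((i : ℕ) : ZMod 9)) - P j x) + y (σ 0) := by abel
    rw [h3, h2]
    abel
  ext v
  simp only [Finset.mem_image, Finset.mem_univ, true_and]
  constructor
  · rintro ⟨i, rfl⟩
    exact ⟨σ.symm i, by rw [h1, Equiv.apply_symm_apply]⟩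
  · rintro ⟨i, rfl⟩
    exact ⟨σ i, (h1 i).symm⟩

end Pool.Agent.H.MP_0d0865_co.AH
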