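import Pool.Agent.H.MP_0d0865_co.AH.Def

/-!
# SpaU: uniqueness

PROOF. `y i = P j (x + i) + τ`, `y' i = P j' (x' + i) + τ'` for `i : Fin 4`. By `nc` both are injective (if two values are equal then the
determinant is `0`). As their images are equal there is a permutation `σ` with `y' i = y (σ i)` for all `i`. So `j = j'` and
`x = x'` by `un`. The sum of the elements of the set is `∑ i, P j (x + i) + 4 τ`, also with `τ'`, so `4 τ = 4 τ'`, and
`4 = 1` in `ZMod 3`.
-/

set_option autoImplicit false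

namespace Pool.Agent.H.MP_0d0865_co.AH

open Pool.Agent.H.MP_0d0865_co.AG (dir Dcp)

private theorem SpaU_inj (y : Fin 4 → V3) (h : det3 (y 1 - y 0) (y 2 - y 0) (y 3 - y 0) ≠ 0) :
    Function.Injective y := by
  have h01 : y 0 ≠ y 1 := by
    intro e
    apply h
    rw [← e]
    simp [det3]
  have h02 : y 0 ≠ y 2 := by
    intro e
    apply h
    rw [← e]
    simp [det3]
  have h03 : y 0 ≠ y 3 := by
    intro e
    apply h
    rw [← e]
    simp [det3]
  have h12 : y 1 ≠ y 2 := by
    intro e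
    apply h
    rw [← e]
    simp only [det3]
    ring
  have h13 : y 1 ≠ y 3 := by
    intro e
    apply h
    rw [← e]
    simp only [det3]
    ring
  have h23 : y 2 ≠ y 3 := by
    intro e
    apply h
    rw [← e]
    simp only [det3]
    ring
  intro a b hab
  fin_cases a <;> fin_cases b <;>
  first
  | rfl
  | exact absurd hab h01
  | exact absurd hab h02
  | exact absurd hab h03
  | exact absurd hab h12
  | exact absurd hab h13
  | exact absurd hab h23
  | exact absurd hab.symm h01
  | exact absurd hab.symm h02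
  | exact absurd hab.symm h03
  | exact absurd hab.symm h12
  | exact absurd hab.symm h13
  | exact absurd hab.symm h23

private theorem SpaU_four (τ : V3) : (4 : ℕ) • τ = τ := by
  have h3 : ∀ a : ZMod 3, (4 : ℕ) • a = a := by decide
  refine Prod.ext ?_ (Prod.ext ?_ ?_)
  · exact h3 τ.1
  · exact h3 τ.2.1
  · exact h3 τ.2.2

theorem spa_un {N : ℕ} {P : Fin N → ZMod 9 → V3} {w t t' : Fin N → V3} (h : Dat4 N P w t t')
    (j j' : Fin N) (x x' : ZMod 9) (τ τ' : V3)
    (he : (Finset.univ.image fun i : Fin 4 => P j (x + ((i : ℕ) : ZMod 9)) + τ) =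
      Finset.univ.image fun i : Fin 4 => P j' (x' + ((i : ℕ) : ZMod 9)) + τ') :
    j = j' ∧ x = x' ∧ τ = τ' := by
  have hi' : Function.Injective fun i : Fin 4 => P j' (x' + ((i : ℕ) : ZMod 9)) := by
    apply SpaU_inj
    have h1 := h.nc j' x'
    have e0 : x' + (((0 : Fin 4) : ℕ) : ZMod 9) = x' := by simp
    have e1 : x' + (((1 : Fin 4) : ℕ) : ZMod 9) = x' + 1 := by simp
    have e2 : x' + (((2 : Fin 4) : ℕ) : ZMod 9) = x' + 2 := by simp
    have e3 : x' + (((3 : Fin 4) : ℕ) : ZMod 9) = x' + 3 := by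
      have : (((3 : Fin 4) : ℕ) : ZMod 9) = 3 := by rfl
      rw [this]
    simp only [e0, e1, e2, e3]
    exact h1
  have hm : ∀ i : Fin 4, ∃ k : Fin 4,
      P j (x + ((k : ℕ) : ZMod 9)) + τ = P j' (x' + ((i : ℕ) : ZMod 9)) + τ' := by
    intro i
    have hmem : P j' (x' + ((i : ℕ) : ZMod 9)) + τ' ∈
        (Finset.univ.image fun i : Fin 4 => P j (x + ((i : ℕ) : ZMod 9)) + τ) := by
      rw [he]
      exact Finset.mem_image.2 ⟨i, Finset.mem_univ _, rfl⟩
    obtain ⟨k, -, hk⟩ := Finset.mem_image.1 hmem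
    exact ⟨k, hk⟩
  choose s hs using hm
  have hsi : Function.Injective s := by
    intro a b hab
    apply hi'
    have ha := hs a
    have hb := hs b
    rw [hab] at ha
    exact add_right_cancel (ha.symm.trans hb)
  let σ : Equiv.Perm (Fin 4) := Equiv.ofBijective s (Finite.injective_iff_bijective.1 hsi)
  have hσ : ∀ i, σ i = s i := fun i => rfl
  have hun := h.un j x j' x' σ (by
    intro i
    have ha := hs i
    have hb := hs 0
    have e0 : x' + (((0 : Fin 4) : ℕ) : ZMod 9) = x' := by simp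
    rw [e0] at hb
    rw [hσ, hσ]
    have h2 : P j' (x' + ((i : ℕ) : ZMod 9)) = P j (x + ((s i : ℕ) : ZMod 9)) + τ - τ' :=
      eq_sub_of_add_eq ha.symm
    have h3 : P j' x' = P j (x + ((s 0 : ℕ) : ZMod 9)) + τ - τ' := eq_sub_of_add_eq hb.symm
    rw [h2, h3]
    abel)
  obtain ⟨rfl, rfl⟩ := hun
  refine ⟨rfl, rfl, ?_⟩
  have hsum : ∑ i : Fin 4, (P j (x + ((σ i : ℕ) : ZMod 9)) + τ) =
      ∑ i : Fin 4, (P j (x + ((i : ℕ) : ZMod 9)) + τ') :=
    Finset.sum_congr rfl fun i _ => hs i
  rw [Finset.sum_add_distrib, Finset.sum_add_distrib,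
    Equiv.sum_comp σ (fun k : Fin 4 => P j (x + ((k : ℕ) : ZMod 9)))] at hsum
  have h4 := add_left_cancel hsum
  rw [Finset.sum_const, Finset.sum_const, Finset.card_univ, Fintype.card_fin, SpaU_four,
    SpaU_four] at h4
  exact h4

end Pool.Agent.H.MP_0d0865_co.AH
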