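import Pool.Agent.H.MP_0d0865_co.AH.SpaS
import Pool.Agent.H.MP_0d0865_co.AH.SpaU
import Pool.Agent.H.MP_0d0865_co.AH.SpaE

/-!
# Spa: the space

PROOF. As in `AG.Pla`. The factors are indexed by `Fin N × (ZMod 3 × ZMod 3)`, the cycles of a factor by `c ∈ ZMod 3`:
`φ (j, (a, b)) (c, x) = P j x + c • w j + a • t j + b • t' j`. It is injective: if `P j x + c • w j = P j x' + c' • w j` then `x = x'`
by `tr`, then `c = c'` as `w j ≠ 0` (`wt`); so it is bijective (both sides have 27 elements). The property `Spn` is translated by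
`spa_spn` (use `nc`; the differences of the translated cycle are those of `P j`). Existence: `spa_ex` and
`τ = c • w j + a • t j + b • t' j` for some `c, a, b` (Cramer with `wt`, or: the linear map `(c, a, b) ↦ c • w j + a • t j + b • t' j` is
injective as its determinant is not `0`, so bijective). Uniqueness: `spa_un`, then `c, a, b` are unique by `wt`.
-/

set_option autoImplicit false

namespace Pool.Agent.H.MP_0d0865_co.AH

open Pool.Agent.H.MP_0d0865_co.AG (dir Dcp)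

/-- The coordinates with respect to a basis. -/
theorem spa_bij (u v w : V3) (hd : det3 u v w ≠ 0) :
    Function.Bijective fun c : V3 => c.1 • u + c.2.1 • v + c.2.2 • w := by
  have h3 : Fact (Nat.Prime 3) := ⟨Nat.prime_three⟩
  refine Finite.injective_iff_bijective.1 fun c c' he => ?_
  have he' : c.1 • u + c.2.1 • v + c.2.2 • w = c'.1 • u + c'.2.1 • v + c'.2.2 • w := he
  have k1 : ∀ c : V3, det3 (c.1 • u + c.2.1 • v + c.2.2 • w) v w = c.1 * det3 u v w := by
    intro c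
    simp only [det3, Prod.fst_add, Prod.snd_add, Prod.smul_fst, Prod.smul_snd, smul_eq_mul]
    ring
  have k2 : ∀ c : V3, det3 u (c.1 • u + c.2.1 • v + c.2.2 • w) w = c.2.1 * det3 u v w := by
    intro c
    simp only [det3, Prod.fst_add, Prod.snd_add, Prod.smul_fst, Prod.smul_snd, smul_eq_mul]
    ring
  have k3 : ∀ c : V3, det3 u v (c.1 • u + c.2.1 • v + c.2.2 • w) = c.2.2 * det3 u v w := by
    intro c
    simp only [det3, Prod.fst_add, Prod.snd_add, Prod.smul_fst, Prod.smul_snd, smul_eq_mul]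
    ring
  have e1 : c.1 * det3 u v w = c'.1 * det3 u v w := by rw [← k1, ← k1, he']
  have e2 : c.2.1 * det3 u v w = c'.2.1 * det3 u v w := by rw [← k2, ← k2, he']
  have e3 : c.2.2 * det3 u v w = c'.2.2 * det3 u v w := by rw [← k3, ← k3, he']
  exact Prod.ext (mul_right_cancel₀ hd e1)
    (Prod.ext (mul_right_cancel₀ hd e2) (mul_right_cancel₀ hd e3))

/-- the factor -/
private def Spa_f {N : ℕ} (P : Fin N → ZMod 9 → V3) (w t t' : Fin N → V3)
    (i : Fin N × (ZMod 3 × ZMod 3)) (q : ZMod 3 × ZMod 9) : V3 :=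
  P i.1 q.2 + (q.1 • w i.1 + i.2.1 • t i.1 + i.2.2 • t' i.1)

private theorem Spa_inj {N : ℕ} {P : Fin N → ZMod 9 → V3} {w t t' : Fin N → V3}
    (h : Dat4 N P w t t') (i : Fin N × (ZMod 3 × ZMod 3)) :
    Function.Injective (Spa_f P w t t' i) := by
  intro q q' he
  have he' : P i.1 q.2 + (q.1 • w i.1 + i.2.1 • t i.1 + i.2.2 • t' i.1) =
      P i.1 q'.2 + (q'.1 • w i.1 + i.2.1 • t i.1 + i.2.2 • t' i.1) := he
  have h1 : P i.1 q.2 - P i.1 q'.2 = (q'.1 - q.1) • w i.1 := by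
    rw [sub_smul, sub_eq_sub_iff_add_eq_add]
    have h2 := congrArg (fun z => z - (i.2.1 • t i.1 + i.2.2 • t' i.1)) he'
    have h3 : P i.1 q.2 + q.1 • w i.1 = P i.1 q'.2 + q'.1 • w i.1 := by
      have e1 : P i.1 q.2 + q.1 • w i.1 = P i.1 q.2 +
        (q.1 • w i.1 + i.2.1 • t i.1 + i.2.2 • t' i.1) -
        (i.2.1 • t i.1 + i.2.2 • t' i.1) := by abel
      have e2 : P i.1 q'.2 + q'.1 • w i.1 = P i.1 q'.2 +
        (q'.1 • w i.1 + i.2.1 • t i.1 + i.2.2 • t' i.1) -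
        (i.2.1 • t i.1 + i.2.2 • t' i.1) := by abel
      rw [e1, e2]
      exact h2
    rw [h3, add_comm]
  have h4 := h.tr i.1 q.2 q'.2 _ h1
  rw [h4] at he'
  have h5 := (spa_bij (w i.1) (t i.1) (t' i.1) (h.wt i.1)).1
    (a₁ := (q.1, i.2.1, i.2.2)) (a₂ := (q'.1, i.2.1, i.2.2)) (add_left_cancel he')
  have h6 : q.1 = q'.1 := congrArg (fun c : V3 => c.1) h5
  exact Prod.ext h6 h4

theorem spa [Fact (Nat.Prime 3)] {N : ℕ} {P : Fin N → ZMod 9 → V3} {w t t' : Fin N → V3}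
    (h : Dat4 N P w t t') : Dec 4 9 V3 (Spn 4 3) := by
  classical
  refine ⟨Fin N × (ZMod 3 × ZMod 3), inferInstance, fun _ => ZMod 3, fun _ => inferInstance,
    fun i => Equiv.ofBijective (Spa_f P w t t' i)
      ((Fintype.bijective_iff_injective_and_card _).2 ⟨Spa_inj h i, rfl⟩), ?_, ?_⟩
  · rintro ⟨j, a, b⟩ ⟨c, x⟩
    rw [spa_spn]
    refine ⟨fun i : Fin 4 => P j (x + ((i : ℕ) : ZMod 9)) + (c • w j + a • t j + b • t' j), rfl, ?_⟩
    have e0 : (((0 : Fin 4) : ℕ) : ZMod 9) = 0 := rfl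
    have e1 : (((1 : Fin 4) : ℕ) : ZMod 9) = 1 := rfl
    have e2 : (((2 : Fin 4) : ℕ) : ZMod 9) = 2 := rfl
    have e3 : (((3 : Fin 4) : ℕ) : ZMod 9) = 3 := rfl
    beta_reduce
    rw [e0, e1, e2, e3, add_zero, add_sub_add_right_eq_sub, add_sub_add_right_eq_sub,
      add_sub_add_right_eq_sub]
    exact h.nc j x
  · intro s hs
    rw [spa_spn] at hs
    obtain ⟨y, rfl, hd⟩ := hs
    obtain ⟨j, x, τ, he⟩ := spa_ex h y hd
    rw [he]
    obtain ⟨c, hc⟩ := (spa_bij (w j) (t j) (t' j) (h.wt j)).2 τ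
    have hc' : c.1 • w j + c.2.1 • t j + c.2.2 • t' j = τ := hc
    clear hc he
    subst hc'
    refine ⟨⟨(j, (c.2.1, c.2.2)), (c.1, x)⟩, rfl, ?_⟩
    rintro ⟨⟨j', a', b'⟩, ⟨c', x'⟩⟩ he
    have he' : (Finset.univ.image fun i : Fin 4 => P j (x + ((i : ℕ) : ZMod 9)) +
        (c.1 • w j + c.2.1 • t j + c.2.2 • t' j)) =
        Finset.univ.image fun i : Fin 4 => P j' (x' + ((i : ℕ) : ZMod 9)) +
        (c' • w j' + a' • t j' + b' • t' j') := he
    obtain ⟨rfl, rfl, h5⟩ := spa_un h j j' x x' _ _ he'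
    have h6 := (spa_bij (w j) (t j) (t' j) (h.wt j)).1
      (a₁ := c) (a₂ := (c', a', b')) h5
    subst h6
    rfl

end Pool.Agent.H.MP_0d0865_co.AH
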