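import Pool.Agent.H.MP_0d0865_co.AH.Cmb
import Pool.Agent.H.MP_0d0865_co.AH.PlnD
import Pool.Agent.H.MP_0d0865_co.AH.Spa
import Pool.Agent.H.MP_0d0865_co.AH.DatC

/-!
# Main: `k = 4`, powers of 3
-/

set_option autoImplicit false

namespace Pool.Agent.H.MP_0d0865_co.AH

open Pool.Agent.H.MP_0d0865_co.AG (dir Dcp)

theorem four (d : ℕ) (hd : 2 ≤ d) : Dcp 4 (3 ^ d) (fun _ : Fin (3 ^ (d - 2)) => 9) := by
  have : Fact (Nat.Prime 3) := ⟨by norm_num⟩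
  exact cmb plane9 (spa dat4) d hd

end Pool.Agent.H.MP_0d0865_co.AH
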