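import Pool.Agent.H.MP_0d0865_co.AH.Rnk

/-!
# Pln: the plane

PROOF. `I = Fin N`, `A i = Unit`, `φ i ((), x) = Q i x`. Every set of four points of the plane spans it: by `rank4` its directions have
rank 2 or 3, and the plane has rank 2, so `dir 3 s = ⊤` (`Submodule.eq_top_of_finrank_eq`). The set `T 4 (φ i) ((), x)` has four elements:
`Q i` is injective and `x, x + 1, x + 2, x + 3` are distinct in `ZMod 9`. The rest is the hypothesis.
-/

set_option autoImplicit false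

namespace Pool.Agent.H.MP_0d0865_co.AH

open Pool.Agent.H.MP_0d0865_co.AG (dir Dcp)

private theorem Pln_spn [Fact (Nat.Prime 3)] {s : Finset (ZMod 3 × ZMod 3)} (hs : s.card = 4) :
    Spn 4 3 s := by
  refine ⟨hs, Submodule.eq_top_of_finrank_eq ?_⟩
  have h1 : Module.finrank (ZMod 3) (ZMod 3 × ZMod 3) = 2 := by
    rw [Module.finrank_prod, Module.finrank_self]
  have h2 : Module.finrank (ZMod 3) (dir 3 s) ≤ Module.finrank (ZMod 3) (ZMod 3 × ZMod 3) :=
    Submodule.finrank_le _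
  rw [h1] at h2 ⊢
  rcases rank4 hs with h | h
  · exact h
  · omega

private theorem Pln_card {N : ℕ} (Q : Fin N → (ZMod 9 ≃ ZMod 3 × ZMod 3)) (j : Fin N) (x : ZMod 9) :
    (Finset.univ.image fun i : Fin 4 => Q j (x + ((i : ℕ) : ZMod 9))).card = 4 := by
  have h1 : Function.Injective fun i : Fin 4 => Q j (x + ((i : ℕ) : ZMod 9)) := by
    intro a b hab
    have h2 := add_left_cancel ((Q j).injective hab)
    clear hab
    revert h2 a b
    decide
  rw [Finset.card_image_of_injective _ h1]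
  rfl

theorem pln [Fact (Nat.Prime 3)] {N : ℕ} {Q : Fin N → (ZMod 9 ≃ ZMod 3 × ZMod 3)}
    (h : ∀ s : Finset (ZMod 3 × ZMod 3), s.card = 4 → ∃! x : Fin N × ZMod 9,
      s = Finset.univ.image fun i : Fin 4 => Q x.1 (x.2 + ((i : ℕ) : ZMod 9))) :
    Dec 4 9 (ZMod 3 × ZMod 3) (Spn 4 3) := by
  refine ⟨Fin N, inferInstance, fun _ => PUnit, fun _ => inferInstance,
    fun i => (Equiv.punitProd (ZMod 9)).trans (Q i), ?_, ?_⟩
  · rintro j ⟨_, x⟩
    exact Pln_spn (Pln_card Q j x)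
  · intro s hs
    obtain ⟨⟨j, x⟩, h1, h2⟩ := h s hs.1
    refine ⟨⟨j, (PUnit.unit, x)⟩, h1, ?_⟩
    rintro ⟨j', ⟨_, x'⟩⟩ h3
    have h4 := h2 (j', x') h3
    simp only [Prod.mk.injEq] at h4
    obtain ⟨rfl, rfl⟩ := h4
    rfl

end Pool.Agent.H.MP_0d0865_co.AH
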