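import Pool.Agent.H.MP_0d0865_co.AH.Def

/-!
# SpaS: the spanning sets of four points of the space

PROOF. If `s` is the image of `y` with `det3 (y 1 - y 0) (y 2 - y 0) (y 3 - y 0) ≠ 0` then `y` is injective (if two values are equal the
determinant is `0`: two of the three vectors are equal or one is `0`; `ring`), and the three vectors, which are in
`dir 3 s`, span the space: by Cramer every `z` is a combination with the coefficients `det3 z v w / det3 u v w`,
`det3 u z w / det3 u v w`, `det3 u v z / det3 u v w` (or: `decide` the existence of the three coefficients; or linear independence via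
`Matrix.det`). Conversely let `s` have four elements, `s` the image of an injective `y : Fin 4 → V3`, and `dir 3 s = ⊤`: all the
differences of elements of `s` are in the span of the three vectors `u, v, w`, so they span the space; if the determinant is `0` then
there is a nonzero linear form which vanishes on `u, v, w` (one of the cross products is not zero, or `u, v, w` are multiples of
one vector), or: `Matrix.exists_vecMul_eq_zero_iff`; or use bases: three vectors which span a space of rank 3 are a basis, and
`Basis.det` or `Matrix.isUnit_det` of the matrix is a unit (`det3` is `Matrix.det` of `!![..]`, `Matrix.det_fin_three`).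
-/

set_option autoImplicit false

namespace Pool.Agent.H.MP_0d0865_co.AH

open Pool.Agent.H.MP_0d0865_co.AG (dir Dcp)

private theorem SpaS_cram (u v w z : V3) :
    (det3 u v w) • z = det3 z v w • u + det3 u z w • v + det3 u v z • w := by
  ext <;> simp only [det3, Prod.smul_fst, Prod.smul_snd, Prod.fst_add, Prod.snd_add, smul_eq_mul] <;>
    ring

private theorem SpaS_inj (y : Fin 4 → V3) (hd : det3 (y 1 - y 0) (y 2 - y 0) (y 3 - y 0) ≠ 0) :
    Function.Injective y := by
  have h01 : y 0 ≠ y 1 := by
    intro h; apply hd; rw [h]; simp only [det3, sub_self, Prod.fst_zero, Prod.snd_zero]; ring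
  have h02 : y 0 ≠ y 2 := by
    intro h; apply hd; rw [← h]; simp only [det3, sub_self, Prod.fst_zero, Prod.snd_zero]; ring
  have h03 : y 0 ≠ y 3 := by
    intro h; apply hd; rw [← h]; simp only [det3, sub_self, Prod.fst_zero, Prod.snd_zero]; ring
  have h12 : y 1 ≠ y 2 := by
    intro h; apply hd; rw [h]; simp only [det3]; ring
  have h13 : y 1 ≠ y 3 := by
    intro h; apply hd; rw [h]; simp only [det3]; ring
  have h23 : y 2 ≠ y 3 := by
    intro h; apply hd; rw [h]; simp only [det3]; ring
  intro i j hij
  fin_cases i <;> fin_cases j <;> first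
    | rfl
    | exact absurd hij h01
    | exact absurd hij h02
    | exact absurd hij h03
    | exact absurd hij h12
    | exact absurd hij h13
    | exact absurd hij h23
    | exact absurd hij.symm h01
    | exact absurd hij.symm h02
    | exact absurd hij.symm h03
    | exact absurd hij.symm h12
    | exact absurd hij.symm h13
    | exact absurd hij.symm h23

private theorem SpaS_ne (u v w : V3)
    (h : ∀ z : V3, ∃ a b c : ZMod 3, a • u + b • v + c • w = z) : det3 u v w ≠ 0 := by
  obtain ⟨a1, b1, c1, h1⟩ := h (1, 0, 0)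
  obtain ⟨a2, b2, c2, h2⟩ := h (0, 1, 0)
  obtain ⟨a3, b3, c3, h3⟩ := h (0, 0, 1)
  simp only [Prod.ext_iff, Prod.fst_add, Prod.snd_add, Prod.smul_fst, Prod.smul_snd,
    smul_eq_mul] at h1 h2 h3
  obtain ⟨p1, p2, p3⟩ := h1
  obtain ⟨q1, q2, q3⟩ := h2
  obtain ⟨r1, r2, r3⟩ := h3
  intro h0
  have hM : (!![a1, b1, c1; a2, b2, c2; a3, b3, c3] : Matrix (Fin 3) (Fin 3) (ZMod 3)) *
      !![u.1, u.2.1, u.2.2; v.1, v.2.1, v.2.2; w.1, w.2.1, w.2.2] = 1 := by
    ext i j
    fin_cases i <;> fin_cases j <;>
      simp [Matrix.mul_apply, Fin.sum_univ_three, p1, p2, p3, q1, q2, q3, r1, r2, r3]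
  have hD := congrArg Matrix.det hM
  have hE : Matrix.det (!![u.1, u.2.1, u.2.2; v.1, v.2.1, v.2.2; w.1, w.2.1, w.2.2] :
      Matrix (Fin 3) (Fin 3) (ZMod 3)) = det3 u v w := by
    rw [Matrix.det_fin_three]
    simp [det3]
    ring
  rw [Matrix.det_mul, hE, h0, mul_zero, Matrix.det_one] at hD
  exact absurd hD (by decide)

theorem spa_spn [Fact (Nat.Prime 3)] (s : Finset V3) :
    Spn 4 3 s ↔ ∃ y : Fin 4 → V3, s = Finset.univ.image y ∧
      det3 (y 1 - y 0) (y 2 - y 0) (y 3 - y 0) ≠ 0 := by
  constructor
  · rintro ⟨hc, ht⟩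
    set e := (s.equivFinOfCardEq hc).symm with he
    let y : Fin 4 → V3 := fun i => (e i : V3)
    have hs : s = Finset.univ.image y := by
      ext a
      simp only [Finset.mem_image, Finset.mem_univ, true_and]
      constructor
      · intro ha
        exact ⟨e.symm ⟨a, ha⟩, by simp [y]⟩
      · rintro ⟨i, rfl⟩
        exact (e i).2
    refine ⟨y, hs, SpaS_ne _ _ _ ?_⟩
    have hle : dir 3 s ≤ Submodule.span (ZMod 3) {y 1 - y 0, y 2 - y 0, y 3 - y 0} := by
      have hb : ∀ i, y i - y 0 ∈ Submodule.span (ZMod 3) {y 1 - y 0, y 2 - y 0, y 3 - y 0} := by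
        intro i
        fin_cases i
        · have : y 0 - y 0 = 0 := sub_self _
          simp only [Fin.zero_eta]
          rw [this]
          exact Submodule.zero_mem _
        · exact Submodule.subset_span (by simp)
        · exact Submodule.subset_span (by simp)
        · exact Submodule.subset_span (by simp)
      apply Submodule.span_le.2
      rintro _ ⟨a, ha, b, hb', rfl⟩
      rw [hs, Finset.mem_image] at ha hb'
      obtain ⟨i, -, rfl⟩ := ha
      obtain ⟨j, -, rfl⟩ := hb'
      have := Submodule.sub_mem _ (hb i) (hb j)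
      rwa [sub_sub_sub_cancel_right] at this
    intro z
    have hz : z ∈ Submodule.span (ZMod 3) {y 1 - y 0, y 2 - y 0, y 3 - y 0} := by
      apply hle
      rw [ht]
      exact Submodule.mem_top
    exact Submodule.mem_span_triple.1 hz
  · rintro ⟨y, rfl, hd⟩
    refine ⟨?_, ?_⟩
    · rw [Finset.card_image_of_injective _ (SpaS_inj y hd)]
      rfl
    · rw [eq_top_iff]
      intro z _
      have hm : ∀ i, y i - y 0 ∈ dir 3 (Finset.univ.image y) := by
        intro i
        exact Submodule.subset_span ⟨y i, Finset.mem_image_of_mem _ (Finset.mem_univ _), y 0,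
          Finset.mem_image_of_mem _ (Finset.mem_univ _), rfl⟩
      have hz := SpaS_cram (y 1 - y 0) (y 2 - y 0) (y 3 - y 0) z
      have hz' : z = (det3 (y 1 - y 0) (y 2 - y 0) (y 3 - y 0))⁻¹ •
          ((det3 (y 1 - y 0) (y 2 - y 0) (y 3 - y 0)) • z) := by
        rw [smul_smul, inv_mul_cancel₀ hd, one_smul]
      rw [hz', hz]
      exact Submodule.smul_mem _ _ (Submodule.add_mem _ (Submodule.add_mem _
        (Submodule.smul_mem _ _ (hm 1)) (Submodule.smul_mem _ _ (hm 2)))
        (Submodule.smul_mem _ _ (hm 3)))

end Pool.Agent.H.MP_0d0865_co.AH
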