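import Pool.Agent.H.MP_0d0865_co.AH.Def
import Pool.Agent.H.MP_0d0865_co.AG.Tra

/-!
# Tra: images

PROOF. As in `AG.Tra` (`T3_image`, `Dec.equiv`), with `k` instead of 3. `T_image`: `Finset.image_image`. `Dec.equiv`: compose `φ i`
with `e`; `Spn` is preserved by `AG.dir_image` (`w = 0`, `map ⊤ = ⊤`) and `Finset.card_image_of_injective`.
-/

set_option autoImplicit false

namespace Pool.Agent.H.MP_0d0865_co.AH

open Pool.Agent.H.MP_0d0865_co.AG (dir Dcp)

theorem T_image {k L : ℕ} {V V' : Type} [DecidableEq V] [DecidableEq V'] {A B : Type}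
    (φ : A × ZMod L → V) (g : V → V') (ψ : B × ZMod L → V') (a : A) (b : B)
    (x : ZMod L) (h : ∀ y, ψ (b, y) = g (φ (a, y))) : T k ψ (b, x) = (T k φ (a, x)).image g := by
  unfold T
  rw [Finset.image_image]
  congr 1
  funext i
  exact h _

private theorem Tra_im {X Y : Type} [DecidableEq X] [DecidableEq Y] {f : X → Y} {g : Y → X}
    (h : ∀ x, f (g x) = x) (s : Finset Y) : (s.image g).image f = s := by
  rw [Finset.image_image]
  have h1 : f ∘ g = id := funext h
  rw [h1, Finset.image_id]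

private theorem Tra_spn {k p : ℕ} [Fact p.Prime] {V V' : Type} [AddCommGroup V] [Module (ZMod p) V]
    [AddCommGroup V'] [Module (ZMod p) V'] [DecidableEq V] [DecidableEq V']
    (e : V ≃ₗ[ZMod p] V') {s : Finset V} (h : Spn k p s) : Spn k p (s.image e) := by
  refine ⟨by rw [Finset.card_image_of_injective _ e.injective]; exact h.1, ?_⟩
  have h1 : s.image e = s.image fun u => (0 : V') + (e : V →ₗ[ZMod p] V') u := by
    congr 1
    funext u
    rw [zero_add]
    rfl
  rw [h1, Pool.Agent.H.MP_0d0865_co.AG.dir_image, h.2, Submodule.map_top]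
  exact LinearMap.range_eq_top.2 e.surjective

theorem Dec.equiv {k L p : ℕ} [Fact p.Prime] {V V' : Type} [AddCommGroup V] [Module (ZMod p) V]
    [AddCommGroup V'] [Module (ZMod p) V'] [DecidableEq V] [DecidableEq V']
    (e : V ≃ₗ[ZMod p] V') (h : Dec k L V (Spn k p)) : Dec k L V' (Spn k p) := by
  obtain ⟨I, iI, A, iA, φ, h1, h2⟩ := h
  have hT : ∀ i q, T k ((φ i).trans e.toEquiv) q = (T k (φ i) q).image e := fun i q =>
    T_image (φ i) e _ q.1 q.1 q.2 fun y => rfl
  refine ⟨I, iI, A, iA, fun i => (φ i).trans e.toEquiv, ?_, ?_⟩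
  · intro i q
    rw [hT]
    exact Tra_spn e (h1 i q)
  · intro s hs
    obtain ⟨x, hx, hu⟩ := h2 _ (Tra_spn e.symm hs)
    refine ⟨x, ?_, fun y hy => hu y ?_⟩
    · show s = T k ((φ x.1).trans e.toEquiv) x.2
      have hx' : s.image e.symm = T k (φ x.1) x.2 := hx
      rw [hT, ← hx', Tra_im e.apply_symm_apply]
    · show s.image e.symm = T k (φ y.1) y.2
      have hy' : s = T k ((φ y.1).trans e.toEquiv) y.2 := hy
      rw [hT] at hy'
      rw [hy', Tra_im e.symm_apply_apply]

end Pool.Agent.H.MP_0d0865_co.AH
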